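import Mathlib
import Pool.Agent.H82.SZ2.Defs
import Pool.Agent.H26.SZ.Fj

/-!
# MP_103a5c SimpleZeros, version 2, block W: windows and the certificate
-/

open MeasureTheory Set Filter Topology
open scoped Real ContDiff

namespace Pool.Agent.H26.SZ

open Pool.Agent Pool.Agent.H6 H82SZ

open Classical in
/-- the zeros of positive ordinate within `r` of the zero `i` -/
noncomputable def win (r : ℝ) (i : PC.Z) : Finset PC.Z := (FZ (gZ i + r)).filter (fun j => |gZ j - gZ i| ≤ r)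

lemma mem_win {r : ℝ} {i j : PC.Z} : j ∈ win r i ↔ 0 < gZ j ∧ |gZ j - gZ i| ≤ r := by
  unfold win
  rw [Finset.mem_filter, mem_FZ]
  constructor
  · rintro ⟨⟨h1, _⟩, h3⟩
    exact ⟨h1, h3⟩
  · rintro ⟨h1, h3⟩
    exact ⟨⟨h1, by linarith [(abs_le.1 h3).2]⟩, h3⟩

/-- their number, with multiplicity -/
noncomputable def nW (r : ℝ) (i : PC.Z) : ℕ := ∑ j ∈ win r i, PC.m j

lemma one_le_m (i : PC.Z) : 1 ≤ PC.m i := H5.one_le_m i.2

lemma self_mem_win {r : ℝ} {i : PC.Z} (hr : 0 ≤ r) (hi : 0 < gZ i) : i ∈ win r i := by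
  rw [mem_win, sub_self, abs_zero]
  exact ⟨hi, hr⟩

lemma m_le_nW {r : ℝ} {i : PC.Z} (hr : 0 ≤ r) (hi : 0 < gZ i) : PC.m i ≤ nW r i :=
  Finset.single_le_sum (f := fun j : PC.Z => PC.m j) (fun _ _ => Nat.zero_le _) (self_mem_win hr hi)

lemma nW_mono {r r' : ℝ} (h : r ≤ r') (i : PC.Z) : nW r i ≤ nW r' i := by
  unfold nW
  refine Finset.sum_le_sum_of_subset fun j hj => ?_
  rw [mem_win] at hj ⊢
  exact ⟨hj.1, hj.2.trans h⟩

lemma nW_two {r : ℝ} {i j : PC.Z} (hr : 0 ≤ r) (hi : 0 < gZ i) (hj : j ∈ win r i) (hij : j ≠ i) : 2 ≤ nW r i := by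
  classical
  have h1 : ∑ k ∈ ({i, j} : Finset PC.Z), PC.m k ≤ nW r i := by
    refine Finset.sum_le_sum_of_subset fun k hk => ?_
    rcases Finset.mem_insert.1 hk with h | h
    · rw [h]; exact self_mem_win hr hi
    · rw [Finset.mem_singleton.1 h]; exact hj
  rw [Finset.sum_pair hij.symm] at h1
  have h2 := one_le_m i
  have h3 := one_le_m j
  omega

lemma nW_one {r : ℝ} {i : PC.Z} (hr : 0 ≤ r) (hi : 0 < gZ i) (h : nW r i = 1) : PC.m i = 1 ∧ ∀ j ∈ win r i, j = i := by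
  have h1 := m_le_nW hr hi
  have h2 := one_le_m i
  refine ⟨by omega, fun j hj => ?_⟩
  by_contra hne
  have := nW_two hr hi hj hne
  omega

lemma exists_neighbour {r : ℝ} {i : PC.Z} (h : 2 ≤ nW r i) (h1 : PC.m i = 1) : ∃ j : PC.Z, j ≠ i ∧ |gZ j - gZ i| ≤ r := by
  classical
  by_contra hne
  push Not at hne
  have h2 : win r i ⊆ {i} := by
    intro j hj
    rw [Finset.mem_singleton]
    by_contra h3
    have := hne j h3
    linarith [(mem_win.1 hj).2]
  have h3 : nW r i ≤ ∑ k ∈ ({i} : Finset PC.Z), PC.m k := Finset.sum_le_sum_of_subset h2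
  rw [Finset.sum_singleton] at h3
  omega

/-- The prime polynomial is at least `μ` times the number of zeros in the window, up to `o(1)`. -/
theorem cert_N (RH : RiemannHypothesis) {χ : ℝ → ℝ} (hχ : Nice χ) (hpos : ∀ x, 0 ≤ cosT χ x) {b μ : ℝ}
    (hm : ∀ x, |x| ≤ b → μ ≤ cosT χ x) {ε : ℝ} (hε : 0 < ε) :
    ∀ᶠ T in atTop, ∀ i : PC.Z, gZ i ∈ Icc (T / 4) (4 * T) →
      (nW (2 * π * b / Real.log T) i : ℝ) * μ - ε ≤ χ 0 - WW (cosT χ) (Real.log T) (gZ i) := by
  obtain ⟨CR, I⟩ := exists_inputs RH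
  obtain ⟨a, ha, hP⟩ := Pool.Agent.H98.HF.zeta_poisson RH
  have hcount : Countable PC.Z := (zetaFacts RH).countable.to_subtype
  obtain ⟨s, hs0, hs⟩ := hχ.supp
  have hφ : TestFn s (cosT χ) := (hχ.reg hs).test
  filter_upwards [Pool.Agent.H98.HF.delta_long I ha hP hχ (by norm_num : (0 : ℝ) < 1 / 4) (by norm_num : (1 : ℝ) / 4 < 4) hε,
    Real.tendsto_log_atTop.eventually_ge_atTop (2 * π)] with T h1 hL i hi
  have hL0 : 0 < Real.log T := by linarith [Real.pi_pos]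
  have h2 := h1 (gZ i) (by rwa [show 1 / 4 * T = T / 4 by ring])
  have h3 : (nW (2 * π * b / Real.log T) i : ℝ) * μ ≤ SS gZ wZ (cosT χ) (Real.log T) (gZ i) := by
    have hsum : Summable fun j => wZ j * cosT χ (Real.log T * (gZ i - gZ j) / (2 * π)) := by
      obtain ⟨D, hD0, hD⟩ := hφ.decay
      exact (I.ord.summable_phi hD0 hD hL (gZ i)).of_abs
    have h4 := hsum.sum_le_tsum (win (2 * π * b / Real.log T) i) fun j _ => mul_nonneg (wZ_nonneg j) (hpos _)
    refine le_trans ?_ h4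
    unfold nW
    rw [Nat.cast_sum, Finset.sum_mul]
    refine Finset.sum_le_sum fun j hj => ?_
    refine mul_le_mul_of_nonneg_left (hm _ ?_) (wZ_nonneg j)
    have h5 := (mem_win.1 hj).2
    have hp := Real.pi_pos
    rw [abs_div, abs_mul, abs_of_pos hL0, abs_of_pos (by positivity : 0 < 2 * π), abs_sub_comm, div_le_iff₀ (by positivity)]
    rw [le_div_iff₀ hL0] at h5
    linarith
  rw [abs_le] at h2
  linarith [h2.2]

end Pool.Agent.H26.SZ
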