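import Mathlib
import Pool.Agent.H26.SZ2.Va

/-!
# MP_103a5c SimpleZeros, version 2, block W: the bound for close pairs
-/

open MeasureTheory Set Filter Topology
open scoped Real ContDiff

namespace Pool.Agent.H26.SZ

open Pool.Agent Pool.Agent.H6 H82SZ

lemma adm_zero (θ : ℝ) : Adm θ (fun _ => 0) := by
  refine ⟨contDiff_const, ?_, fun v _ => rfl⟩
  exact HasCompactSupport.zero

lemma FF_zero (c0 : ℝ) (α : ℝ → ℝ) (T : ℝ) (s : ℂ) : FF c0 α (fun _ => 0) T s = dpol T (y0 c0 α T) s := by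
  unfold FF
  have h : dpol T (xk (fun _ => 0) T) s = 0 := by
    unfold dpol
    apply Finset.sum_eq_zero
    intro n _
    have : xk (fun _ => 0) T n = (ArithmeticFunction.moebius n : ℝ) * 0 := rfl
    rw [this]
    simp
  rw [h]
  simp

/-- The moment bound for sets of indices. -/
lemma mb_sum {c0 : ℝ} {α P : ℝ → ℝ} {T K : ℝ}
    (h : ∀ S : Finset ℝ, (∀ g ∈ S, g ∈ PC.Z ∧ T / 4 ≤ g ∧ g ≤ 4 * T) →
      ∑ g ∈ S, (PC.m g : ℝ) * Gw T g * ‖FF c0 α P T (1 / 2 + g * Complex.I)‖ ^ 2 ≤ K)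
    (F : Finset PC.Z) (hF : ∀ i ∈ F, gZ i ∈ Icc (T / 4) (4 * T)) :
    ∑ i ∈ F, wZ i * Gw T (gZ i) * ‖FF c0 α P T (rZ i)‖ ^ 2 ≤ K := by
  have h1 := h (F.map ⟨(Subtype.val : PC.Z → ℝ), Subtype.val_injective⟩) (by
      intro g hg
      obtain ⟨i, hi, rfl⟩ := Finset.mem_map.1 hg
      have := hF i hi
      exact ⟨i.2, this.1, this.2⟩)
  rw [Finset.sum_map] at h1
  exact h1

/-- the algebraic inequality of the certificate -/
lemma cert_alg {ψ δ n : ℝ} (hψ : Real.sqrt 2 - 1 ≤ ψ) (hδ0 : 0 < δ) (hδ1 : δ < 1) (hn : n = 2 ∨ 3 ≤ n) {x : ℝ}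
    (hx : 1 - 2 * ψ + n * (ψ - δ / 10) - δ / 10 - δ / 10 ≤ x) : (1 - δ) ^ 2 * (n - 1) ≤ x ^ 2 := by
  have hs2 := Real.sq_sqrt (show (0 : ℝ) ≤ 2 by norm_num)
  have hs20 := Real.sqrt_nonneg 2
  have hs21 : (7 / 5 : ℝ) ≤ Real.sqrt 2 := by
    apply Real.le_sqrt_of_sq_le
    norm_num
  have hψ0 : 2 / 5 ≤ ψ := by linarith
  have hn2 : 2 ≤ n := by rcases hn with h | h <;> linarith
  have h1 : (1 - δ) * (1 + (n - 2) * ψ) ≤ x := by
    refine le_trans ?_ hx
    have h2 : δ * (1 + (n - 2) * (2 / 5)) ≤ δ * (1 + (n - 2) * ψ) :=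
      mul_le_mul_of_nonneg_left (by nlinarith) hδ0.le
    nlinarith
  have h0 : 0 ≤ (1 - δ) * (1 + (n - 2) * ψ) := by
    have h3 : 0 ≤ (n - 2) * ψ := mul_nonneg (by linarith) (by linarith)
    exact mul_nonneg (by linarith) (by linarith)
  have h4 : n - 1 ≤ (1 + (n - 2) * ψ) ^ 2 := by
    rcases hn with h | h
    · rw [h]; norm_num
    · have h1 : 1 ≤ 2 * ψ + ψ ^ 2 := by nlinarith
      have h2 : (1 + (n - 2) * ψ) ^ 2 - (n - 1) = (n - 2) * (2 * ψ + (n - 2) * ψ ^ 2 - 1) := by ring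
      have h3 : 0 ≤ (n - 2) * (2 * ψ + (n - 2) * ψ ^ 2 - 1) := by
        apply mul_nonneg (by linarith)
        nlinarith [sq_nonneg ψ]
      linarith
  have h5 := pow_le_pow_left₀ h0 h1 2
  rw [mul_pow] at h5
  have h6 : (1 - δ) ^ 2 * (n - 1) ≤ (1 - δ) ^ 2 * (1 + (n - 2) * ψ) ^ 2 := mul_le_mul_of_nonneg_left h4 (sq_nonneg _)
  linarith

/-- The bound for the close pairs, at height `T`. -/
theorem close_T (RH : RiemannHypothesis) (hMB : MomentBound) (hW2 : W2stat) {χ P : ℝ → ℝ} {ε : ℝ} (hε : 0 < ε) (hε2 : ε < 1 / 2)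
    (hχ : Nice χ) (hpos : ∀ x, 0 ≤ cosT χ x) (hβ : Real.sqrt 2 - 1 ≤ cosT χ 0) (hχs : ∀ u, 1 - ε ≤ |u| → χ u = 0)
    (hPsm : ContDiff ℝ ∞ P) (hPc : HasCompactSupport P) (hPs : ∀ u, 1 / 2 - ε ≤ u → P u = 0) {J : ℝ}
    (hJ : JJ (1 + χ 0 - 2 * cosT χ 0) (fun u => -2 * χ u) P ≤ J) {δ : ℝ} (hδ : 0 < δ) :
    ∃ b : ℝ, 0 < b ∧ ∀ᶠ T in atTop, ∀ F : Finset PC.Z, (∀ i ∈ F, gZ i ∈ Icc (T / 4) (4 * T)) →
      ∑ i ∈ F, wZ i * ((nW (2 * π * b / Real.log T) i : ℝ) - 1) * Gw T (gZ i) ≤ (J + δ) * (om T * Real.log T) := by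
  classical
  set c0 := 1 + χ 0 - 2 * cosT χ 0 with hc0
  set α : ℝ → ℝ := fun u => -2 * χ u with hαdef
  set ψ := cosT χ 0 with hψdef
  have hα : Adm (1 - ε) α := by
    refine ⟨contDiff_const.mul hχ.smooth, hχ.hasCompactSupport.mul_left, fun v hv => ?_⟩
    rw [hαdef]
    simp only
    rw [hχs v (hv.trans (le_abs_self v)), mul_zero]
  have hP : Adm (1 / 2 - ε) P := ⟨hPsm, hPc, hPs⟩
  have hs21 : (7 / 5 : ℝ) ≤ Real.sqrt 2 := by
    apply Real.le_sqrt_of_sq_le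
    norm_num
  have hψ0 : 2 / 5 ≤ ψ := by linarith
  -- the loss
  obtain ⟨d, hd0, hd1, hd2⟩ : ∃ η : ℝ, 0 < η ∧ η < 1 ∧ (J + η) / (1 - η) ^ 2 < J + δ / 2 := by
    have h1 : Tendsto (fun η : ℝ => (J + η) / (1 - η) ^ 2) (𝓝[>] 0) (𝓝 J) := by
      have h2 : ContinuousAt (fun η : ℝ => (J + η) / (1 - η) ^ 2) 0 := by
        apply ContinuousAt.div (by fun_prop) (by fun_prop) (by norm_num)
      have h3 := h2.tendsto
      simp only [add_zero, sub_zero, one_pow, div_one] at h3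
      exact h3.mono_left nhdsWithin_le_nhds
    have h4 := h1.eventually (gt_mem_nhds (by linarith : J < J + δ / 2))
    have h5 : ∀ᶠ η : ℝ in 𝓝[>] 0, 0 < η ∧ η < 1 := by
      filter_upwards [self_mem_nhdsWithin, mem_nhdsWithin_of_mem_nhds (Iio_mem_nhds (zero_lt_one' ℝ))] with η h6 h7
      exact ⟨h6, h7⟩
    obtain ⟨η, h6, h7⟩ := (h4.and h5).exists
    exact ⟨η, h7.1, h7.2, h6⟩
  have h1d : 0 < (1 - d) ^ 2 := by have : 0 < 1 - d := by linarith
                                   positivity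
  -- constants
  set C3 : ℝ := |JJ (χ 0) α (fun _ => 0)| + 1 with hC3
  have hC30 : 0 < C3 := by positivity
  obtain ⟨CW, hCW0, hCW⟩ := hW2 ε P hε hε2 hP
  have hcont : Continuous (cosT χ) := by
    obtain ⟨s, hs0, hs⟩ := hχ.supp
    exact ((hχ.reg hs).test).cont
  obtain ⟨b1, hb1, hb1'⟩ : ∃ b1 : ℝ, 0 < b1 ∧ ∀ x, |x| ≤ b1 → ψ - d / 10 ≤ cosT χ x := by
    have h1 : ∀ᶠ x in 𝓝 (0 : ℝ), ψ - d / 10 < cosT χ x := hcont.continuousAt.eventually (lt_mem_nhds (by linarith))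
    obtain ⟨r, hr, hr2⟩ := Metric.eventually_nhds_iff.1 h1
    refine ⟨r / 2, by linarith, fun x hx => (hr2 ?_).le⟩
    rw [Real.dist_eq, sub_zero]
    linarith
  set lam : ℝ := 400 * C3 / δ with hlam
  have hlam0 : 0 < lam := by positivity
  set η : ℝ := d / 10 with hη
  have hη0 : 0 < η := by positivity
  obtain ⟨b2, hb2, hb2'⟩ : ∃ b2 : ℝ, 0 < b2 ∧ lam / 2 * (CW * b2 / η ^ 2) ≤ δ / 8 := by
    refine ⟨δ / 8 / (lam / 2 * (CW / η ^ 2) + 1), by positivity, ?_⟩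
    have h1 : 0 ≤ lam / 2 * (CW / η ^ 2) := by positivity
    have h2 : lam / 2 * (CW * (δ / 8 / (lam / 2 * (CW / η ^ 2) + 1)) / η ^ 2) =
        (lam / 2 * (CW / η ^ 2)) / (lam / 2 * (CW / η ^ 2) + 1) * (δ / 8) := by ring
    rw [h2]
    have h3 : (lam / 2 * (CW / η ^ 2)) / (lam / 2 * (CW / η ^ 2) + 1) ≤ 1 := by
      rw [div_le_one (by linarith)]; linarith
    nlinarith
  set b : ℝ := min b1 b2 with hb
  have hb0 : 0 < b := lt_min hb1 hb2
  have hm : ∀ x, |x| ≤ b → ψ - d / 10 ≤ cosT χ x := fun x hx => hb1' x (hx.trans (min_le_left _ _))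
  have hbb : lam / 2 * (CW * b / η ^ 2) ≤ δ / 8 := by
    refine le_trans ?_ hb2'
    have : b ≤ b2 := min_le_right _ _
    gcongr
  refine ⟨b, hb0, ?_⟩
  filter_upwards [cert_N RH hχ hpos hm hη0, hMB c0 ε α P hε hε2 hα hP d hd0,
    hMB (χ 0) ε α (fun _ => 0) hε hε2 hα (adm_zero _) 1 one_pos, hCW b hb0, eventually_gt_atTop (1 : ℝ)]
    with T hc hM1 hM2 hW hT1 F hF
  have hL : 0 < Real.log T := Real.log_pos hT1
  have hOm : 0 ≤ om T * Real.log T := by
    unfold om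
    positivity
  set Om : ℝ := om T * Real.log T with hOmd
  set r : ℝ := 2 * π * b / Real.log T with hr
  have hr0 : 0 ≤ r := by positivity
  set n : PC.Z → ℝ := fun i => (nW r i : ℝ) with hn
  set y : PC.Z → ℂ := fun i => deriv riemannZeta (rZ i) * dpol T (xk P T) (rZ i) / (Real.log T : ℂ) with hy
  have hgpos : ∀ i ∈ F, 0 < gZ i := fun i hi => by linarith [(hF i hi).1]
  have hn1 : ∀ i ∈ F, 1 ≤ n i := by
    intro i hi
    have h1 := m_le_nW hr0 (hgpos i hi)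
    have h2 := one_le_m i
    show (1 : ℝ) ≤ (nW r i : ℝ)
    exact_mod_cast h2.trans h1
  have hwn : ∀ i ∈ F, wZ i ≤ n i := by
    intro i hi
    show (PC.m i : ℝ) ≤ (nW r i : ℝ)
    exact_mod_cast m_le_nW hr0 (hgpos i hi)
  have hre : ∀ i : PC.Z, ∀ c : ℝ, (dpol T (y0 c α T) (rZ i)).re = c - WW (cosT χ) (Real.log T) (gZ i) :=
    fun i c => re_Ys hχ hε hχs c hT1 (gZ i)
  -- moment bounds
  have hMF : ∀ G : Finset PC.Z, G ⊆ F → ∑ i ∈ G, wZ i * Gw T (gZ i) * ‖FF c0 α P T (rZ i)‖ ^ 2 ≤ (J + d) * Om := by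
    intro G hG
    refine (mb_sum hM1 G fun i hi => hF i (hG hi)).trans ?_
    exact mul_le_mul_of_nonneg_right (by linarith) hOm
  have hM3 : ∀ G : Finset PC.Z, G ⊆ F → ∑ i ∈ G, wZ i * Gw T (gZ i) * n i ^ 2 ≤ 100 * C3 * Om := by
    intro G hG
    have h1 : ∀ i ∈ G, wZ i * Gw T (gZ i) * n i ^ 2 ≤ 100 * (wZ i * Gw T (gZ i) * ‖FF (χ 0) α (fun _ => 0) T (rZ i)‖ ^ 2) := by
      intro i hi
      have h2 := hc i (hF i (hG hi))
      have h3 : n i * (ψ - d / 10) - η ≤ (FF (χ 0) α (fun _ => 0) T (rZ i)).re := by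
        rw [FF_zero, hre]
        exact h2
      have h4 := hn1 i (hG hi)
      have h5 : n i / 10 ≤ ‖FF (χ 0) α (fun _ => 0) T (rZ i)‖ := by
        refine le_trans ?_ (h3.trans ((le_abs_self _).trans (Complex.abs_re_le_norm _)))
        have h6 : η ≤ n i / 10 := by rw [hη]; linarith
        have h7 : n i * (3 / 10) ≤ n i * (ψ - d / 10) := mul_le_mul_of_nonneg_left (by linarith) (by linarith)
        linarith
      have h6 := pow_le_pow_left₀ (by linarith : 0 ≤ n i / 10) h5 2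
      have h7 : 0 ≤ wZ i * Gw T (gZ i) := mul_nonneg (wZ_nonneg i) (Gw_pos _ _).le
      nlinarith [mul_le_mul_of_nonneg_left h6 h7]
    refine (Finset.sum_le_sum h1).trans ?_
    rw [← Finset.mul_sum]
    have h2 := mb_sum hM2 G fun i hi => hF i (hG hi)
    have h3 : (JJ (χ 0) α (fun _ => 0) + 1) * Om ≤ C3 * Om :=
      mul_le_mul_of_nonneg_right (by rw [hC3]; linarith [le_abs_self (JJ (χ 0) α (fun _ => 0))]) hOm
    linarith
  -- splitting
  set B : Finset PC.Z := F.filter (fun i => 2 ≤ nW r i ∧ η < ‖y i‖) with hB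
  have hBF : B ⊆ F := Finset.filter_subset _ _
  have hsplit := Finset.sum_filter_add_sum_filter_not F (fun i => 2 ≤ nW r i ∧ η < ‖y i‖)
    (fun i => wZ i * (n i - 1) * Gw T (gZ i))
  have hA : ∑ i ∈ F.filter (fun i => ¬(2 ≤ nW r i ∧ η < ‖y i‖)), wZ i * (n i - 1) * Gw T (gZ i) ≤ (J + δ / 2) * Om := by
    have h1 : ∀ i ∈ F.filter (fun i => ¬(2 ≤ nW r i ∧ η < ‖y i‖)), wZ i * (n i - 1) * Gw T (gZ i) ≤
        1 / (1 - d) ^ 2 * (wZ i * Gw T (gZ i) * ‖FF c0 α P T (rZ i)‖ ^ 2) := by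
      intro i hi
      obtain ⟨hi1, hi2⟩ := Finset.mem_filter.1 hi
      have hwg : 0 ≤ wZ i * Gw T (gZ i) := mul_nonneg (wZ_nonneg i) (Gw_pos _ _).le
      by_cases h2 : 2 ≤ nW r i
      · have h3 : ‖y i‖ ≤ η := by
          by_contra h4
          push Not at h4
          exact hi2 ⟨h2, h4⟩
        have h4 : n i = 2 ∨ 3 ≤ n i := by
          rcases Nat.eq_or_lt_of_le h2 with h | h
          · left
            show (nW r i : ℝ) = 2
            exact_mod_cast h.symm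
          · right
            show (3 : ℝ) ≤ (nW r i : ℝ)
            exact_mod_cast h
        have h5 : 1 - 2 * ψ + n i * (ψ - d / 10) - d / 10 - d / 10 ≤ ‖FF c0 α P T (rZ i)‖ := by
          have h6 := hc i (hF i hi1)
          have h7 : FF c0 α P T (rZ i) = dpol T (y0 c0 α T) (rZ i) - y i := rfl
          have h8 := norm_sub_norm_le (dpol T (y0 c0 α T) (rZ i)) (y i)
          rw [h7]
          refine le_trans ?_ h8
          have h9 : c0 - WW (cosT χ) (Real.log T) (gZ i) ≤ ‖dpol T (y0 c0 α T) (rZ i)‖ := by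
            rw [← hre i c0]
            exact (le_abs_self _).trans (Complex.abs_re_le_norm _)
          have h10 : n i * (ψ - d / 10) - η ≤ χ 0 - WW (cosT χ) (Real.log T) (gZ i) := h6
          rw [hη] at h3 h10
          rw [hc0] at h9
          linarith
        have h6 := cert_alg hβ hd0 hd1 h4 h5
        have h7 := mul_le_mul_of_nonneg_left h6 hwg
        rw [one_div, ← div_eq_inv_mul, le_div_iff₀ h1d]
        calc wZ i * (n i - 1) * Gw T (gZ i) * (1 - d) ^ 2 = wZ i * Gw T (gZ i) * ((1 - d) ^ 2 * (n i - 1)) := by ring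
          _ ≤ _ := h7
      · have h3 : n i = 1 := by
          have h4 := m_le_nW hr0 (hgpos i hi1)
          have h5 := one_le_m i
          show (nW r i : ℝ) = 1
          have : nW r i = 1 := by omega
          exact_mod_cast this
        rw [h3, sub_self, mul_zero, zero_mul]
        positivity
    refine (Finset.sum_le_sum h1).trans ?_
    rw [← Finset.mul_sum]
    have h2 := hMF _ (Finset.filter_subset (fun i => ¬(2 ≤ nW r i ∧ η < ‖y i‖)) F)
    calc 1 / (1 - d) ^ 2 * ∑ i ∈ F.filter (fun i => ¬(2 ≤ nW r i ∧ η < ‖y i‖)), wZ i * Gw T (gZ i) * ‖FF c0 α P T (rZ i)‖ ^ 2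
        ≤ 1 / (1 - d) ^ 2 * ((J + d) * Om) := mul_le_mul_of_nonneg_left h2 (by positivity)
      _ = (J + d) / (1 - d) ^ 2 * Om := by ring
      _ ≤ (J + δ / 2) * Om := mul_le_mul_of_nonneg_right hd2.le hOm
  have hwB : ∀ i ∈ B, wZ i = 1 := by
    intro i hi
    rw [wZ_eq_one_iff]
    intro h0
    have h1 := (Finset.mem_filter.1 hi).2.2
    rw [hy] at h1
    simp only at h1
    rw [h0, zero_mul, zero_div, norm_zero] at h1
    linarith
  have hBsum : ∑ i ∈ B, Gw T (gZ i) ≤ CW * b / η ^ 2 * Om := by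
    have h1 := hW B (by
      intro i hi
      refine ⟨hF i (hBF hi), ?_⟩
      have h2 := hwB i hi
      have h3 : PC.m i = 1 := by
        have : (PC.m i : ℝ) = 1 := h2
        exact_mod_cast this
      exact exists_neighbour (Finset.mem_filter.1 hi).2.1 h3)
    have h2 : η ^ 2 * ∑ i ∈ B, Gw T (gZ i) ≤ CW * b * Om := by
      refine le_trans ?_ h1
      rw [Finset.mul_sum]
      refine Finset.sum_le_sum fun i hi => ?_
      rw [mul_comm]
      refine mul_le_mul_of_nonneg_left ?_ (Gw_pos _ _).le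
      exact pow_le_pow_left₀ hη0.le (Finset.mem_filter.1 hi).2.2.le 2
    have h3 : 0 < η ^ 2 := by positivity
    rw [show CW * b / η ^ 2 * Om = (CW * b * Om) / η ^ 2 by ring, le_div_iff₀ h3]
    linarith
  have hBB : ∑ i ∈ B, wZ i * (n i - 1) * Gw T (gZ i) ≤ δ / 4 * Om := by
    have h1 : ∀ i ∈ B, wZ i * (n i - 1) * Gw T (gZ i) ≤ lam / 2 * Gw T (gZ i) +
        1 / (2 * lam) * (wZ i * Gw T (gZ i) * n i ^ 2) := by
      intro i hi
      rw [hwB i hi, one_mul, one_mul]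
      have hg := Gw_pos T (gZ i)
      have h2 : n i - 1 ≤ lam / 2 + 1 / (2 * lam) * n i ^ 2 := by
        have h3 : n i ≤ lam / 2 + 1 / (2 * lam) * n i ^ 2 := by
          rw [div_add' _ _ _ (by norm_num : (2 : ℝ) ≠ 0), le_div_iff₀ (by norm_num : (0 : ℝ) < 2)]
          have h4 : 1 / (2 * lam) * n i ^ 2 * 2 = n i ^ 2 / lam := by field_simp
          rw [h4, ← sub_nonneg]
          have h5 : lam + n i ^ 2 / lam - n i * 2 = (n i - lam) ^ 2 / lam := by field_simp; ring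
          rw [h5]
          positivity
        linarith
      calc (n i - 1) * Gw T (gZ i) ≤ (lam / 2 + 1 / (2 * lam) * n i ^ 2) * Gw T (gZ i) := mul_le_mul_of_nonneg_right h2 hg.le
        _ = _ := by ring
    refine (Finset.sum_le_sum h1).trans ?_
    rw [Finset.sum_add_distrib, ← Finset.mul_sum, ← Finset.mul_sum]
    have h2 := hM3 B hBF
    have h3 : lam / 2 * ∑ i ∈ B, Gw T (gZ i) ≤ δ / 8 * Om := by
      calc lam / 2 * ∑ i ∈ B, Gw T (gZ i) ≤ lam / 2 * (CW * b / η ^ 2 * Om) := mul_le_mul_of_nonneg_left hBsum (by positivity)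
        _ = lam / 2 * (CW * b / η ^ 2) * Om := by ring
        _ ≤ δ / 8 * Om := mul_le_mul_of_nonneg_right hbb hOm
    have h4 : 1 / (2 * lam) * ∑ i ∈ B, wZ i * Gw T (gZ i) * n i ^ 2 ≤ δ / 8 * Om := by
      calc 1 / (2 * lam) * ∑ i ∈ B, wZ i * Gw T (gZ i) * n i ^ 2 ≤ 1 / (2 * lam) * (100 * C3 * Om) :=
            mul_le_mul_of_nonneg_left h2 (by positivity)
        _ = δ / 8 * Om := by rw [hlam]; field_simp; ring
    linarith
  have hfin : ∑ i ∈ F, wZ i * (n i - 1) * Gw T (gZ i) ≤ (J + δ / 2) * Om + δ / 4 * Om := by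
    rw [← hsplit]
    linarith
  refine hfin.trans ?_
  nlinarith

end Pool.Agent.H26.SZ
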