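import Mathlib
import Pool.Agent.H26.SZ2.Vb

/-!
# MP_103a5c SimpleZeros, version 2, block W: the final theorem
-/

open MeasureTheory Set Filter Topology
open scoped Real ContDiff

namespace Pool.Agent.H26.SZ

open Pool.Agent Pool.Agent.H6 H82SZ

/-- the radius at the zero `i` -/
noncomputable def rr (β : ℝ) (i : PC.Z) : ℝ := 2 * π * β / Real.log (max (gZ i) 2)

lemma log_max_pos (i : PC.Z) : 0 < Real.log (max (gZ i) 2) :=
  Real.log_pos (by linarith [le_max_right (gZ i) 2])

lemma rr_nonneg {β : ℝ} (hβ : 0 ≤ β) (i : PC.Z) : 0 ≤ rr β i := by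
  unfold rr
  have := log_max_pos i
  positivity

/-- the weights -/
noncomputable def uW (β : ℝ) (i : PC.Z) : ℝ := wZ i * ((nW (rr β i) i - 1 : ℕ) : ℝ)

lemma uW_nonneg (β : ℝ) (i : PC.Z) : 0 ≤ uW β i := mul_nonneg (wZ_nonneg i) (Nat.cast_nonneg _)

theorem gbound_of {J : ℝ} {b : ℝ} (hb : 0 < b)
    (h : ∀ᶠ T in atTop, ∀ F : Finset PC.Z, (∀ i ∈ F, gZ i ∈ Icc (T / 4) (4 * T)) →
      ∑ i ∈ F, wZ i * ((nW (2 * π * b / Real.log T) i : ℝ) - 1) * Gw T (gZ i) ≤ J * (om T * Real.log T)) :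
    GBound gZ (uW (b / 2)) J := by
  filter_upwards [h, eventually_ge_atTop (16 : ℝ)] with T hT hT16 F hF
  have h1 := hT F hF
  have hL : 0 < Real.log T := Real.log_pos (by linarith)
  have h2 : om T * Real.log T = T * Real.sqrt (Real.log T) / (2 * Real.sqrt π) := by
    unfold om
    have h3 : Real.log T = Real.sqrt (Real.log T) * Real.sqrt (Real.log T) := (Real.mul_self_sqrt hL.le).symm
    have h4 : Real.sqrt (Real.log T) ≠ 0 := (Real.sqrt_pos.2 hL).ne'
    have h5 : Real.sqrt π ≠ 0 := (Real.sqrt_pos.2 Real.pi_pos).ne'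
    nth_rewrite 2 [h3]
    field_simp
  rw [h2] at h1
  refine le_trans (Finset.sum_le_sum fun i hi => ?_) h1
  have hg := hF i hi
  have hgpos : 0 < gZ i := by linarith [hg.1]
  have hr0 : 0 ≤ 2 * π * b / Real.log T := by positivity
  have h3 : rr (b / 2) i ≤ 2 * π * b / Real.log T := by
    unfold rr
    have h4 : Real.log T / 2 ≤ Real.log (max (gZ i) 2) := by
      have h5 : Real.log (T / 4) ≤ Real.log (max (gZ i) 2) :=
        Real.log_le_log (by linarith) (hg.1.trans (le_max_left _ _))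
      have h6 : Real.log (T / 4) = Real.log T - Real.log 4 := Real.log_div (by linarith) (by norm_num)
      have h7 : Real.log 16 ≤ Real.log T := Real.log_le_log (by norm_num) hT16
      have h8 : Real.log 16 = 2 * Real.log 4 := by
        rw [show (16 : ℝ) = 4 ^ 2 by norm_num, Real.log_pow]
        push_cast
        ring
      linarith
    rw [div_le_div_iff₀ (log_max_pos i) hL]
    have h9 : 2 * π * (b / 2) * Real.log T = 2 * π * b * (Real.log T / 2) := by ring
    rw [h9]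
    exact mul_le_mul_of_nonneg_left h4 (by positivity)
  have h4 := nW_mono h3 i
  have h5 := m_le_nW hr0 hgpos
  have h6 := one_le_m i
  refine mul_le_mul_of_nonneg_right ?_ (Gw_pos _ _).le
  unfold uW
  refine mul_le_mul_of_nonneg_left ?_ (wZ_nonneg i)
  have h7 : ((nW (2 * π * b / Real.log T) i : ℝ) - 1) = ((nW (2 * π * b / Real.log T) i - 1 : ℕ) : ℝ) := by
    rw [Nat.cast_sub (h6.trans h5), Nat.cast_one]
  rw [h7]
  exact_mod_cast Nat.sub_le_sub_right h4 1

/-- a positive lower bound for the positive ordinates -/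
lemma exists_gmin : ∃ g : ℝ, 0 < g ∧ ∀ i : PC.Z, 0 < gZ i → g ≤ gZ i := by
  classical
  by_cases h : (FZ 1).Nonempty
  · refine ⟨min ((FZ 1).inf' h gZ) 1, ?_, fun i hi => ?_⟩
    · refine lt_min ?_ one_pos
      rw [Finset.lt_inf'_iff]
      intro i hi
      exact ((mem_FZ _ _).1 hi).1
    · by_cases h1 : gZ i ≤ 1
      · exact (min_le_left _ _).trans (Finset.inf'_le _ ((mem_FZ _ _).2 ⟨hi, h1⟩))
      · exact (min_le_right _ _).trans (le_of_lt (not_le.1 h1))
  · refine ⟨1, one_pos, fun i hi => ?_⟩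
    by_contra h1
    push Not at h1
    exact h ⟨i, (mem_FZ _ _).2 ⟨hi, h1.le⟩⟩

/-- **Blocks W3-W6.** -/
theorem v2_of (RH : RiemannHypothesis) (hMB : MomentBound) (hW2 : W2stat) : V2stat := by
  classical
  obtain ⟨χ, P, ε, hε, hε2, hχ, hpos, hβ, hχs, hPsm, hPc, hPs, hJ⟩ := exists_data
  obtain ⟨b, hb, hclose⟩ := close_T RH hMB hW2 hε hε2 hχ hpos hβ hχs hPsm hPc hPs hJ.le
    (δ := 0.00001) (by norm_num)
  have hG := gbound_of hb hclose
  have hcnt := count mem_FZ (uW_nonneg (b / 2)) (by norm_num : (0 : ℝ) ≤ 0.29275 + 0.00001) hG (by norm_num : (0 : ℝ) < 0.00001)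
  obtain ⟨CR, I⟩ := exists_inputs RH
  have hcountable : Countable PC.Z := (zetaFacts RH).countable.to_subtype
  have hc := I.count
  obtain ⟨g, hg0, hg⟩ := exists_gmin
  have hβ0 : 0 < b / 2 := by linarith
  have hsmall : ∀ᶠ T : ℝ in atTop, 2 * π * (b / 2) / Real.log T < g := by
    have h1 : Tendsto (fun T : ℝ => 2 * π * (b / 2) / Real.log T) atTop (𝓝 0) :=
      tendsto_const_nhds.div_atTop Real.tendsto_log_atTop
    exact h1.eventually (gt_mem_nhds hg0)
  refine ⟨b / 2, hβ0, ?_⟩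
  filter_upwards [hcnt, final RH hMB, hc.eventually (gt_mem_nhds (by norm_num : (1 : ℝ) < 1 + 0.00001)),
    hc.eventually (lt_mem_nhds (by norm_num : 1 - 0.00001 < (1 : ℝ))), eventually_ge_atTop (3 : ℝ), hsmall]
    with T h1 hfin h2 h3 hT hsm
  have hL : 0 < Real.log T := Real.log_pos (by linarith)
  have hN0 : 0 < PC.norm T := by
    have : PC.norm T = T / (2 * π) * Real.log T := rfl
    rw [this]
    positivity
  have h4 : ∑ i ∈ FZ T, wZ i ≤ (1 + 0.00001) * PC.norm T := by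
    rw [one_div, ← div_eq_inv_mul, div_lt_iff₀ hN0] at h2
    exact h2.le
  have h5 : (1 - 0.00001) * PC.norm T ≤ ∑ i ∈ FZ T, wZ i := by
    rw [one_div, ← div_eq_inv_mul, lt_div_iff₀ hN0] at h3
    exact h3.le
  -- windows
  have hrr : ∀ i ∈ FZ T, 2 * π * (b / 2) / Real.log T ≤ rr (b / 2) i := by
    intro i hi
    unfold rr
    have h6 := ((mem_FZ _ _).1 hi).2
    refine div_le_div_of_nonneg_left (by positivity) (log_max_pos i) ?_
    exact Real.log_le_log (by linarith [le_max_right (gZ i) 2]) (max_le h6 (by linarith))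
  have hgp : ∀ i ∈ FZ T, 0 < gZ i := fun i hi => ((mem_FZ _ _).1 hi).1
  have hu : ∀ i ∈ FZ T, uW (b / 2) i = wZ i * ((nW (rr (b / 2) i) i : ℝ) - 1) := by
    intro i hi
    unfold uW
    rw [Nat.cast_sub ((one_le_m i).trans (m_le_nW (rr_nonneg hβ0.le i) (hgp i hi))), Nat.cast_one]
  refine ⟨?_, ?_, hfin.2.2⟩
  · -- pairs
    rw [pairCount_eq RH]
    have h6 : ∀ i ∈ FZ T, (∑ j ∈ FZ T, if 2 * π * (-(b / 2)) / Real.log T ≤ gZ i - gZ j ∧
        gZ i - gZ j ≤ 2 * π * (b / 2) / Real.log T then wZ i * wZ j else 0) ≤ uW (b / 2) i + wZ i := by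
      intro i hi
      rw [hu i hi]
      have e : wZ i * ((nW (rr (b / 2) i) i : ℝ) - 1) + wZ i = ∑ j ∈ win (rr (b / 2) i) i, wZ i * wZ j := by
        rw [← Finset.mul_sum]
        unfold nW
        rw [Nat.cast_sum]
        have : ∑ j ∈ win (rr (b / 2) i) i, wZ j = ∑ j ∈ win (rr (b / 2) i) i, ((PC.m j : ℕ) : ℝ) := rfl
        rw [this]
        ring
      rw [e, ← Finset.sum_filter]
      refine Finset.sum_le_sum_of_subset_of_nonneg ?_ fun j _ _ => mul_nonneg (wZ_nonneg i) (wZ_nonneg j)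
      intro j hj
      obtain ⟨hj1, hj2, hj3⟩ := Finset.mem_filter.1 hj
      rw [mem_win]
      refine ⟨hgp j hj1, ?_⟩
      refine le_trans ?_ (hrr i hi)
      rw [show 2 * π * (-(b / 2)) / Real.log T = -(2 * π * (b / 2) / Real.log T) by ring] at hj2
      rw [abs_le]
      constructor <;> linarith
    refine (Finset.sum_le_sum h6).trans ?_
    rw [Finset.sum_add_distrib]
    nlinarith
  · -- simple and isolated zeros
    have hinj : Function.Injective rZ := by
      intro i j hij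
      have := congrArg Complex.im hij
      simp [rZ] at this
      exact Subtype.ext this
    have h6 : ∑ i ∈ FZ T, wZ i - ∑ i ∈ FZ T, uW (b / 2) i ≤ (((FZ T).filter (fun i => nW (rr (b / 2) i) i = 1)).card : ℝ) := by
      rw [← Finset.sum_sub_distrib, Finset.card_filter]
      push_cast
      refine Finset.sum_le_sum fun i hi => ?_
      rw [hu i hi]
      have h7 := m_le_nW (rr_nonneg hβ0.le i) (hgp i hi)
      have h8 := one_le_m i
      by_cases h9 : nW (rr (b / 2) i) i = 1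
      · rw [if_pos h9, h9]
        have h10 : PC.m i = 1 := by omega
        have h11 : wZ i = 1 := by
          show (PC.m i : ℝ) = 1
          exact_mod_cast h10
        rw [h11]
        norm_num
      · rw [if_neg h9]
        have h10 : (2 : ℝ) ≤ (nW (rr (b / 2) i) i : ℝ) := by
          have : 2 ≤ nW (rr (b / 2) i) i := by omega
          exact_mod_cast this
        nlinarith [wZ_nonneg i]
    have h7 : rZ '' (((FZ T).filter (fun i => nW (rr (b / 2) i) i = 1) : Finset PC.Z) : Set PC.Z) ⊆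
        {ρ : ℂ | ρ ∈ PC.zerosUpTo T ∧ deriv riemannZeta ρ ≠ 0 ∧
          ∀ ρ' : ℂ, riemannZeta ρ' = 0 → 0 < ρ'.re → ρ'.re < 1 → ρ' ≠ ρ →
          2 * Real.pi * (b / 2) / Real.log T < |ρ'.im - ρ.im|} := by
      rintro ρ ⟨i, hi, rfl⟩
      obtain ⟨hi1, hi2⟩ := Finset.mem_filter.1 (Finset.mem_coe.1 hi)
      obtain ⟨a4, a5⟩ := (mem_FZ _ _).1 hi1
      obtain ⟨hm1, hm2⟩ := nW_one (rr_nonneg hβ0.le i) a4 hi2
      have him : (rZ i).im = gZ i := by simp [rZ, gZ]
      refine ⟨⟨i.2, ?_, ?_, ?_, ?_⟩, ?_, ?_⟩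
      · simp [rZ]
      · simp [rZ]; norm_num
      · simpa [rZ, gZ] using a4
      · simpa [rZ, gZ] using a5
      · rw [← wZ_eq_one_iff]
        show (PC.m i : ℝ) = 1
        exact_mod_cast hm1
      · intro ρ' z1 z2 z3 hne
        by_contra hlt
        push Not at hlt
        rw [him] at hlt
        have e1 := re_eq_half RH z1 z2 z3
        have z4 : ρ'.im ∈ PC.Z := by unfold PC.Z; simp only [Set.mem_ofPred_eq]; rw [← e1]; exact z1
        set j : PC.Z := ⟨ρ'.im, z4⟩ with hj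
        have hgj : gZ j = ρ'.im := rfl
        by_cases hp : 0 < ρ'.im
        · have hjw : j ∈ win (rr (b / 2) i) i := by
            rw [mem_win, hgj]
            exact ⟨hp, hlt.trans (hrr i hi1)⟩
          have h8 := hm2 j hjw
          apply hne
          rw [e1, ← h8]
          rfl
        · push Not at hp
          have h8 := hg i a4
          have h9 : gZ i ≤ |ρ'.im - gZ i| := by
            rw [abs_sub_comm]
            refine le_trans ?_ (le_abs_self _)
            linarith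
          linarith
    have hfinite : {ρ : ℂ | ρ ∈ PC.zerosUpTo T ∧ deriv riemannZeta ρ ≠ 0 ∧
          ∀ ρ' : ℂ, riemannZeta ρ' = 0 → 0 < ρ'.re → ρ'.re < 1 → ρ' ≠ ρ →
          2 * Real.pi * (b / 2) / Real.log T < |ρ'.im - ρ.im|}.Finite := by
      refine ((FZ T).finite_toSet.image rZ).subset ?_
      rintro ρ ⟨⟨a1, a2, a3, a4, a5⟩, _⟩
      have e1 := re_eq_half RH a1 a2 a3
      have z1 : ρ.im ∈ PC.Z := by unfold PC.Z; simp only [Set.mem_ofPred_eq]; rw [← e1]; exact a1
      exact ⟨⟨ρ.im, z1⟩, (mem_FZ _ _).2 ⟨a4, a5⟩, e1.symm⟩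
    have h8 := Set.ncard_le_ncard h7 hfinite
    rw [Set.ncard_image_of_injective _ hinj, Set.ncard_coe_finset] at h8
    have h9 : (((FZ T).filter (fun i => nW (rr (b / 2) i) i = 1)).card : ℝ) ≤
        (({ρ : ℂ | ρ ∈ PC.zerosUpTo T ∧ deriv riemannZeta ρ ≠ 0 ∧
          ∀ ρ' : ℂ, riemannZeta ρ' = 0 → 0 < ρ'.re → ρ'.re < 1 → ρ' ≠ ρ →
          2 * Real.pi * (b / 2) / Real.log T < |ρ'.im - ρ.im|}.ncard : ℕ) : ℝ) := by exact_mod_cast h8
    refine le_trans ?_ h9
    refine le_trans ?_ h6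
    nlinarith

end Pool.Agent.H26.SZ
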